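import Pool.Agent.Results.MP_429122_al.GradedCore

/-!
# The core of the maximal ideal of a localized standard graded algebra

For every field `k` (infinite or not) and every standard graded `k`-algebra `A`, with `R` the
localization of `A` at `A_+` and `m` its maximal ideal, `core m = (core A_+) R`. More generally this
holds for every maximal ideal `P` of every commutative ring `A` and the localization at `P`.

The proof: contraction and extension are inverse bijections between the reductions of the maximal
ideal of the localization and the reductions of `P`: if `J'` is a reduction of `P A_P` and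
`J = J' ∩ A`, then `P ^ (n + 1) ≤ J`, so that `P ^ (n + 1) / J P ^ n` is killed by `P ^ n` and vanishes
since its localization at `P` does.
-/

set_option autoImplicit false

namespace Pool.Agent.Results.MP_429122_al.CoreLocalizes

open DirectSum Pool.Agent.Results.MP_429122_al.GradedCore

universe u v

/-- The core of the maximal ideal of a localization at a maximal ideal. -/
theorem core_localization {A : Type v} [CommRing A] (P : Ideal A) [hP : P.IsMaximal] :
    core (IsLocalRing.maximalIdeal (Localization.AtPrime P)) =
      (core P).map (algebraMap A (Localization.AtPrime P)) := by
  apply le_antisymm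
  · rw [← IsLocalization.map_under P.primeCompl (Localization.AtPrime P)
      (core (IsLocalRing.maximalIdeal (Localization.AtPrime P)))]
    apply Ideal.map_mono
    intro x hx
    unfold core
    rw [Submodule.mem_sInf]
    intro J hJ
    obtain ⟨N, hN⟩ := pow_le_of_isReduction hJ
    exact mem_of_map_mem P hN (core_le (map_isReduction P hJ) hx)
  · rw [Ideal.map_le_iff_le_comap]
    intro x hx
    rw [Ideal.mem_comap]
    unfold core
    rw [Submodule.mem_sInf]
    intro J hJ
    exact core_le (comap_isReduction P hJ) hx

/-- **Q1.** For every field `k` and every standard graded `k`-algebra `A`, the core of the maximal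
ideal of the localization `R` of `A` at `A_+` is the extension to `R` of the core of `A_+`. -/
theorem result (k : Type u) (A : Type v) [Field k] [CommRing A] [Algebra k A]
    (𝒜 : ℕ → Submodule k A) [GradedAlgebra 𝒜] (h : IsStandardGraded 𝒜) :
    ∃ _ : (HomogeneousIdeal.irrelevant 𝒜).toIdeal.IsPrime,
      core (IsLocalRing.maximalIdeal
        (Localization.AtPrime (HomogeneousIdeal.irrelevant 𝒜).toIdeal)) =
      (core (HomogeneousIdeal.irrelevant 𝒜).toIdeal).map
        (algebraMap A (Localization.AtPrime (HomogeneousIdeal.irrelevant 𝒜).toIdeal)) := by
  have hmax : (HomogeneousIdeal.irrelevant 𝒜).toIdeal.IsMaximal := irrelevant_isMaximal 𝒜 h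
  exact ⟨hmax.isPrime, core_localization _⟩

end Pool.Agent.Results.MP_429122_al.CoreLocalizes
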